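import Pool.Agent.N162.GP.Stm
import Pool.Agent.N162.HN.Coord

/-!
# Project GP (helper162), part CRD (helper252): linear changes of coordinates
-/

set_option autoImplicit false

open FF Pool.Agent.W603.LV Pool.Agent.Y184.NT Pool.Agent.N162.BC IntermediateField MvPolynomial
open Pool.Agent.N162.HN Pool.Agent.N162.GP

namespace Pool.Agent.N252.GP

variable {n : ℕ}

theorem sub_totalDegree (M : Matrix (Fin (n + 2)) (Fin (n + 2)) ℚ)
    (F : MvPolynomial (Fin (n + 2)) ℂ) (D : ℕ) (h : F.totalDegree ≤ D) :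
    (sub M F).totalDegree ≤ D := by
  have e : sub M F = ∑ i ∈ Finset.range (F.totalDegree + 1), sub M (homogeneousComponent i F) := by
    conv_lhs => rw [← sum_homogeneousComponent F]
    unfold sub
    rw [map_sum]
  rw [e]
  refine totalDegree_finsetSum_le fun i hi => ?_
  have h1 := (sub_hom (homogeneousComponent_isHomogeneous i F) M).totalDegree_le
  have h2 := Finset.mem_range.1 hi
  omega

theorem sub_sub {M M' : Matrix (Fin (n + 2)) (Fin (n + 2)) ℚ} (h : M * M' = 1)
    (F : MvPolynomial (Fin (n + 2)) ℂ) : sub M' (sub M F) = F := by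
  have e : (aeval (fun i => ∑ j, C (M' i j : ℂ) * X j) :
        MvPolynomial (Fin (n + 2)) ℂ →ₐ[ℂ] MvPolynomial (Fin (n + 2)) ℂ).comp
      (aeval (fun i => ∑ j, C (M i j : ℂ) * X j)) = AlgHom.id ℂ _ := by
    refine algHom_ext fun i => ?_
    rw [AlgHom.comp_apply, aeval_X, AlgHom.id_apply, map_sum]
    have e1 : ∀ j, (aeval (fun i => ∑ j, C (M' i j : ℂ) * X j) :
        MvPolynomial (Fin (n + 2)) ℂ →ₐ[ℂ] MvPolynomial (Fin (n + 2)) ℂ)
          (C (M i j : ℂ) * X j) = ∑ k, C ((M i j : ℂ) * (M' j k : ℂ)) * X k := by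
      intro j
      rw [map_mul, aeval_X, Finset.mul_sum]
      refine Finset.sum_congr rfl fun k _ => ?_
      rw [aeval_C, C_mul, mul_assoc]
      rfl
    simp only [e1]
    rw [Finset.sum_comm]
    have e2 : ∀ k, ∑ j, C ((M i j : ℂ) * (M' j k : ℂ)) * (X k : MvPolynomial (Fin (n + 2)) ℂ) =
        if i = k then X k else 0 := by
      intro k
      rw [← Finset.sum_mul, ← map_sum]
      have h7 := congrFun (congrFun h i) k
      rw [Matrix.mul_apply, Matrix.one_apply] at h7
      have h8 : ∑ j, (M i j : ℂ) * (M' j k : ℂ) = if i = k then 1 else 0 := by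
        have h9 := congrArg (fun q : ℚ => (q : ℂ)) h7
        push_cast at h9
        rw [h9]
        split_ifs <;> simp
      rw [h8]
      split_ifs <;> simp
    simp only [e2, Finset.sum_ite_eq, Finset.mem_univ, if_true]
  have h2 := congrArg (fun f => f F) e
  exact h2

theorem crd_ : StCRD := by
  intro M n m D K _ _ x ω₀ A A' h1 h2 hcut hadj
  have hcK : CharZero K := charZero_of_injective_algebraMap (algebraMap ℂ K).injective
  refine ⟨?_, hadj.pl, hadj.ne, ?_⟩
  · intro P hP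
    have h3 : aeval x (sub A P) = 0 := by rw [aeval_sub, hP]
    obtain ⟨k, hk⟩ := hcut _ h3
    refine ⟨k, ?_⟩
    obtain ⟨ψ, hψ⟩ : ∃ ψ : MvPolynomial (Fin (M + 2)) ℂ →ₐ[ℂ] MvPolynomial (Fin (M + 2)) ℂ,
        ∀ F, ψ F = sub A' F := ⟨aeval (fun i => ∑ j, C (A' i j : ℂ) * X j), fun F => rfl⟩
    have h4 := Ideal.mem_map_of_mem ψ hk
    rw [map_pow, hψ, sub_sub h1, Ideal.map_span] at h4
    refine Ideal.span_le.2 ?_ h4
    rintro _ ⟨Q, ⟨hQ1, hQ2⟩, rfl⟩
    refine Ideal.subset_span ⟨?_, ?_⟩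
    · rw [hψ]
      exact sub_totalDegree A' Q D hQ1
    · rw [hψ, aeval_sub, act_act h2, hQ2]
  · intro P hP
    have h3 := hadj.reg (sub A P) (sub_hom hP A)
    rw [aeval_sub] at h3
    exact h3

end Pool.Agent.N252.GP
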